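import Mathlib
import Pool.Agent.Helper35.HG.StA

/-! Project HG, module FRL: linear combinations in a frame. -/

set_option autoImplicit false

namespace Helper7.HG

open Helper35.HG Helper35.HC Helper35.HSF Helper35.MS Helper35.PI Helper35.PI2 Helper32.CL
open scoped BigOperators

theorem inner_frame {n N m : ℕ} {A : Fin n → Fin n → EE N} {H : Fin m → Fin n → Fin n → ℝ} {r : ℝ}
    {e : Fin m → EE N} {x₀ : EE N} (h : NFm A H r e x₀) (i j : Fin n) (α : Fin m) :
    (inner ℝ (A i j) (e α) : ℝ) = H α i j := by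
  have hA : A i j = (∑ β, H β i j • e β) - (if i = j then r else 0) • x₀ := by
    have := congrFun (congrFun h.eq i) j
    exact this
  have h1 : ∀ β, (inner ℝ (e β) (e α) : ℝ) = if β = α then 1 else 0 := by
    intro β
    exact (orthonormal_iff_ite.mp h.on) β α
  have h2 : (inner ℝ x₀ (e α) : ℝ) = 0 := by
    rw [real_inner_comm]; exact h.ex α
  rw [hA, inner_sub_left, sum_inner, real_inner_smul_left, h2, mul_zero, sub_zero]
  have h3 : ∀ β, (inner ℝ (H β i j • e β) (e α) : ℝ) = if β = α then H β i j else 0 := by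
    intro β
    rw [real_inner_smul_left, h1 β]
    split_ifs <;> simp
  rw [Finset.sum_congr rfl (fun β _ => h3 β)]
  simp

theorem kn_lin {n N m : ℕ} {A : Fin n → Fin n → EE N} {H : Fin m → Fin n → Fin n → ℝ} {r : ℝ}
    {e : Fin m → EE N} {x₀ : EE N} (h : NFm A H r e x₀) (a : Fin m → ℝ) :
    kn A (∑ α, a α • e α) = lin a H := by
  funext i j
  unfold Helper35.HG.kn lin
  rw [inner_sum]
  refine Finset.sum_congr rfl (fun α _ => ?_)
  rw [real_inner_smul_right, inner_frame h]

theorem mt_lin {n m : ℕ} (H : Fin m → Fin n → Fin n → ℝ) (a : Fin m → ℝ) :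
    mt (lin a H) = ∑ α, a α * mt (H α) := by
  unfold Helper35.HC.mt lin
  rw [Finset.sum_comm, Finset.sum_div]
  refine Finset.sum_congr rfl (fun α _ => ?_)
  rw [← Finset.mul_sum, mul_div_assoc]

theorem hFRL : StFRL := by
  intro n N m hn A H r L e x₀ h hU a
  have hn0 : (n : ℝ) ≠ 0 := by
    have : 0 < n := by omega
    positivity
  refine ⟨kn_lin h a, ?_, ?_, mt_lin H a, ?_⟩
  · have h1 : (inner ℝ (Hv A) (∑ α, a α • e α) : ℝ) = ∑ i, lin a H i i := by
      unfold Hv
      rw [sum_inner]
      refine Finset.sum_congr rfl (fun i _ => ?_)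
      have := congrFun (congrFun (kn_lin h a) i) i
      exact this
    rw [h1, ← mt_lin]
    unfold Helper35.HC.mt
    field_simp
  · intro i j
    unfold lin
    refine Finset.sum_congr rfl (fun α _ => ?_)
    rw [h.sy α i j]
  · intro ha
    refine ⟨?_, ?_, ?_⟩
    · have h2 : (inner ℝ (∑ α, a α • e α) (∑ α, a α • e α) : ℝ) = ∑ α, a α * a α := by
        have := h.on.inner_sum a a Finset.univ
        simpa using this
      have h3 : ‖∑ α, a α • e α‖ ^ 2 = 1 := by
        rw [← real_inner_self_eq_norm_sq, h2, ← ha]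
        exact Finset.sum_congr rfl (fun α _ => by ring)
      have h4 : 0 ≤ ‖∑ α, a α • e α‖ := norm_nonneg _
      nlinarith [sq_nonneg (‖∑ α, a α • e α‖ - 1)]
    · intro v
      rw [sum_inner]
      refine Finset.sum_eq_zero (fun α _ => ?_)
      rw [real_inner_smul_left, (hU α).nL v, mul_zero]
    · rw [sum_inner]
      refine Finset.sum_eq_zero (fun α _ => ?_)
      rw [real_inner_smul_left, (hU α).nx, mul_zero]

end Helper7.HG
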