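import Pool.Agent.Helper35.HG.StC

/-!
# Project HG, module LPB : the weighted integral of the traceless curvature is bounded
-/

set_option autoImplicit false

namespace Pool.Agent.Helper7.HG.LPB

open Helper35.HG Helper35.HC Helper35.HSF Helper35.MS Helper35.PI Helper35.PI2 Helper32.CL
open scoped ContDiff Manifold Topology ENNReal BigOperators
open MeasureTheory Set Filter

theorem lph_ring (n k θ Y W e G R Z w m μ E0 aa dd ad as ds lapθ θk : ℝ) (hW : W ≠ 0)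
    (hn : n ≠ 0) :
    (θk * θ ^ 2) * (m * (E0 / W) * (-2 * e + 2 * w * Y) - m * (m - 1) * (E0 / W ^ 2) * dd)
      + E0 * ((k + 2) * (θk * θ) * (-2 * G + 2 * R) - (k + 2) * (k + 1) * θk * aa)
      - 2 * ((k + 2) * (θk * θ) * (m * (E0 / W)) * ad)
      - Y * ((θk * θ ^ 2) * E0)
      + μ * (((θk * θ) * E0 * (1 / 2 * lapθ + (1 - 1 / n) * e - G - Z)
          + ((θk * θ) * (m * (E0 / W)) * ds + E0 * ((k + 1) * θk) * as))
        - 1 / 2 * ((θk * θ) * E0 * lapθ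
          + ((θk * θ) * (m * (E0 / W)) * ad + E0 * ((k + 1) * θk) * aa)))
    = θk * E0 * ((k + 2) * θ * (-2 * G + 2 * R) - (k + 2) * ((k + 2) - 1) * aa
      + θ ^ 2 * (m / W) * (-2 * e + 2 * w * Y) - m * (m - 1) * θ ^ 2 * dd / W ^ 2
      - 2 * (k + 2) * m * θ * ad / W - Y * θ ^ 2
      + μ * θ * ((1 - 1 / n) * e - G - Z)
      + μ * (((k + 2) - 1) * as - 1 / 2 * (((k + 2) - 1) * aa) + (m * θ / W) * ds
        - 1 / 2 * ((m * θ / W) * ad))) := by
  field_simp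
  ring

/-- consequences of the package for large `Y` -/
theorem lpb_big {n δ θ Y w R a c' : ℝ} (hn : 2 ≤ n) (hδ0 : 0 < δ) (hδ1 : δ < 1)
    (hc' : c' = 2 * (n - 1) / (n * (n + 2))) (hY : 0 < Y) (hθ0 : 0 ≤ θ) (ha : 0 ≤ a)
    (hθ : θ ≤ (1 - δ) * c' * Y) (hw : w ≤ θ + Y / n) (hR : R - θ * w ≤ -(δ * Y * a)) :
    w ≤ 2 * Y ∧ R ≤ 10 * Y * θ := by
  have hc0 : 0 ≤ c' := by rw [hc']; apply div_nonneg <;> nlinarith
  have hc1 : c' ≤ 1 := by
    rw [hc', div_le_one (by nlinarith)]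
    nlinarith
  have h1 : θ ≤ Y := by
    have h2 : (1 - δ) * c' ≤ 1 := by nlinarith
    nlinarith
  have h2 : Y / n ≤ Y := div_le_self hY.le (by linarith)
  have hw2 : w ≤ 2 * Y := by linarith
  refine ⟨hw2, ?_⟩
  have h3 : 0 ≤ δ * Y * a := by positivity
  have h4 : θ * w ≤ θ * (2 * Y) := mul_le_mul_of_nonneg_left hw2 hθ0
  have h5 : 0 ≤ Y * θ := by positivity
  nlinarith

theorem CSTJ_slice {M : Type} [TopologicalSpace M] {V : Type} [TopologicalSpace V] {J : Set ℝ}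
    {g : M → ℝ → V} (h : CSTJ J g) {t : ℝ} (ht : t ∈ J) : Continuous fun q => g q t := by
  have h1 : Continuous fun q : M => (q, t) := by fun_prop
  exact h.comp_continuous h1 fun q => ⟨mem_univ _, ht⟩

theorem int_comb {α : Type*} [MeasurableSpace α] {P : Measure α} {f g h : α → ℝ}
    (hf : Integrable f P) (hg : Integrable g P) (hh : Integrable h P) (zf : ∫ x, f x ∂P = 0)
    (zg : ∫ x, g x ∂P = 0) (zh : ∫ x, h x ∂P = 0) (μ : ℝ) :
    ∫ x, (f x - μ * (g x - 1 / 2 * h x)) ∂P = 0 := by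
  have h1 : Integrable (fun x => 1 / 2 * h x) P := hh.const_mul (1 / 2)
  have h2 : Integrable (fun x => g x - 1 / 2 * h x) P := hg.sub h1
  have h3 : Integrable (fun x => μ * (g x - 1 / 2 * h x)) P := h2.const_mul μ
  rw [integral_sub hf h3, integral_const_mul, integral_sub hg h1, integral_const_mul, zf, zg, zh]
  ring

/-- Groenwall on a half open interval -/
theorem gron {I I' : ℝ → ℝ} {a b c : ℝ} (hd : ∀ t ∈ Ico a b, HasDerivAt I (I' t) t)
    (hle : ∀ t ∈ Ico a b, I' t ≤ c * I t) (hc : 0 ≤ c) (hab : b - a ≤ 1) (h0 : 0 ≤ I a) :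
    ∀ t ∈ Ico a b, I t ≤ I a * Real.exp c := by
  intro t ht
  have hd2 : ∀ s ∈ Ico a b, HasDerivAt (fun s => Real.exp (-c * s) * I s)
      (Real.exp (-c * s) * (-c) * I s + Real.exp (-c * s) * I' s) s := by
    intro s hs
    have h1 : HasDerivAt (fun s : ℝ => -c * s) (-c) s := by
      simpa using (hasDerivAt_id s).const_mul (-c)
    exact (h1.exp).mul (hd s hs)
  have hanti : AntitoneOn (fun s => Real.exp (-c * s) * I s) (Ico a b) := by
    refine antitoneOn_of_deriv_nonpos (convex_Ico a b)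
      (fun s hs => (hd2 s hs).continuousAt.continuousWithinAt) ?_ ?_
    · rw [interior_Ico]
      exact fun s hs => (hd2 s ⟨hs.1.le, hs.2⟩).differentiableAt.differentiableWithinAt
    · intro s hs
      rw [interior_Ico] at hs
      rw [(hd2 s ⟨hs.1.le, hs.2⟩).deriv]
      have h1 := hle s ⟨hs.1.le, hs.2⟩
      have h2 : Real.exp (-c * s) * (-c) * I s + Real.exp (-c * s) * I' s
          = Real.exp (-c * s) * (I' s - c * I s) := by ring
      rw [h2]
      exact mul_nonpos_of_nonneg_of_nonpos (Real.exp_pos _).le (by linarith)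
  have ha : a ∈ Ico a b := ⟨le_rfl, ht.1.trans_lt ht.2⟩
  have h1 : Real.exp (-c * t) * I t ≤ Real.exp (-c * a) * I a := hanti ha ht ht.1
  have h2 : I t ≤ Real.exp (c * (t - a)) * I a := by
    have h3 : Real.exp (c * t) * (Real.exp (-c * t) * I t) ≤
        Real.exp (c * t) * (Real.exp (-c * a) * I a) :=
      mul_le_mul_of_nonneg_left h1 (Real.exp_pos _).le
    rw [← mul_assoc, ← Real.exp_add, ← mul_assoc, ← Real.exp_add] at h3
    have h4 : c * t + -c * t = 0 := by ring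
    have h5 : c * t + -c * a = c * (t - a) := by ring
    rw [h4, h5, Real.exp_zero, one_mul] at h3
    exact h3
  have h3 : Real.exp (c * (t - a)) ≤ Real.exp c := by
    apply Real.exp_le_exp.2
    have h4 : t - a ≤ 1 := by linarith [ht.2]
    nlinarith [ht.1]
  calc I t ≤ Real.exp (c * (t - a)) * I a := h2
    _ ≤ Real.exp c * I a := mul_le_mul_of_nonneg_right h3 h0
    _ = I a * Real.exp c := mul_comm _ _

theorem hLPB (hEAB : StEAB) (hPKB : StPKB) (hJPK : StJPK) (hEPW : StEPW) (hHTR : StHTR)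
    (hTDJ : StTDJ) (hFVJ : StFVJ) (hPRJ : StPRJ) (hMUJ : StMUJ) (hSMR : StSMR)
    (hSMF : StSMF) : StLPB := by
  intro n hn N M _ _ _ _ _ _ _ T F ts κ₀ δ C₀ c χ hPU hD
  have hn1 : 1 ≤ n := by omega
  have hn0 : (0 : ℝ) < n := by exact_mod_cast hn1
  -- the flow on `(0,T)`
  obtain ⟨J, hJdef⟩ : ∃ J : Set ℝ, J = Ioo 0 T := ⟨_, rfl⟩
  have hJo : IsOpen J := by rw [hJdef]; exact isOpen_Ioo
  have hJc : ∀ t ∈ Ico ts T, t ∈ J := by
    intro t ht
    rw [hJdef]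
    exact ⟨hD.ts0.1.trans_le ht.1, ht.2⟩
  have hfl : IsMCFJ (n := n) J F := by rw [hJdef]; exact hD.fl
  have him : IsImmJ (n := n) J F := hfl.toIsImmJ
  -- the constants
  obtain ⟨p, μ, hnp, hp3, hμ, hEAB1⟩ := hEAB n δ hn hD.δ0 hD.δ1
  have hn2 : (2 : ℝ) ≤ n := by exact_mod_cast hn
  obtain ⟨c', hc'⟩ : ∃ c' : ℝ, c' = 2 * ((n : ℝ) - 1) / (n * (n + 2)) := ⟨_, rfl⟩
  have hc'0 : 0 < c' := by
    rw [hc']
    apply div_pos
    · linarith
    · nlinarith
  have hδc : 0 < (1 - δ) * c' := mul_pos (by linarith [hD.δ1]) hc'0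
  have hκ0 : 0 ≤ κ₀ := le_trans zero_le_one hD.κ1
  have hC0 : 0 ≤ C₀ := le_trans zero_le_one hD.C1
  obtain ⟨Λ, hΛ⟩ : ∃ Λ : ℝ, Λ = C₀ * κ₀ / ((1 - δ) * c') := ⟨_, rfl⟩
  have hΛ0 : 0 ≤ Λ := by
    rw [hΛ]
    exact div_nonneg (mul_nonneg hC0 hκ0) hδc.le
  have hΛe : (1 - δ) * c' * Λ = C₀ * κ₀ := by
    rw [hΛ]
    exact mul_div_cancel₀ _ hδc.ne'
  obtain ⟨K, hK0, hAL⟩ := hEAB1 C₀ κ₀ Λ hD.C1 hκ0 hΛ0
  rw [← hc'] at hAL
  refine ⟨p, hnp, hp3, Λ, ?_⟩
  obtain ⟨k, rfl⟩ : ∃ k, p = k + 2 := ⟨p - 2, by omega⟩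
  obtain ⟨m, hm⟩ : ∃ m : ℝ, m = (n : ℝ) - ((k + 2 : ℕ) : ℝ) := ⟨_, rfl⟩
  rw [← hm]
  -- smooth functions
  obtain ⟨-, -, -, hsHH, hsθ, -, -, -⟩ := hSMF n N M J F him
  obtain ⟨Y, hYdef⟩ : ∃ Y : M → ℝ → ℝ, Y = fun q t => ‖HH (n := n) F q t‖ ^ 2 := ⟨_, rfl⟩
  have hYg : ∀ q t, ‖HH (n := n) F q t‖ ^ 2 = Y q t := fun q t => by rw [hYdef]
  have hY1 : ∀ q, ∀ t ∈ J, 1 ≤ Y q t := fun q t ht => by
    rw [← hYg]
    rw [hJdef] at ht
    exact hD.Y1 t ht q
  have hYpos : ∀ q, ∀ t ∈ J, 0 < Y q t := fun q t ht => lt_of_lt_of_le one_pos (hY1 q t ht)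
  simp only [hYg] at hsHH ⊢
  -- `W = Y + Λ`
  have hψ : ContDiff ℝ ∞ (fun x : ℝ => x + Λ) := contDiff_id.add contDiff_const
  have hdψ : (deriv fun x : ℝ => x + Λ) = fun _ => 1 := by
    funext x
    simp
  obtain ⟨hsW0, hW0⟩ := (hHTR n N M J F him (fun q t => Y q t) (fun q t => Y q t) hsHH
    hsHH).2.2.1 (fun x => x + Λ) hψ
  obtain ⟨W, hWdef⟩ : ∃ W : M → ℝ → ℝ, W = fun q t => Y q t + Λ := ⟨_, rfl⟩
  have hWg : ∀ q t, Y q t + Λ = W q t := fun q t => by rw [hWdef]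
  rw [hdψ] at hW0
  simp only [hWg, one_smul, one_mul, deriv_const, zero_mul, sub_zero] at hsW0 hW0 ⊢
  have hWpos : ∀ q, ∀ t ∈ J, 0 < W q t := fun q t ht => by
    rw [← hWg]
    linarith [hYpos q t ht]
  obtain ⟨hsem, hem⟩ := hEPW n N M J F him (fun q t => W q t) m hsW0 hWpos
  have hpow : ∀ j : ℕ, ContDiff ℝ ∞ (fun x : ℝ => x ^ j) := fun j => contDiff_id.pow j
  obtain ⟨-, -, hθp, -⟩ := hHTR n N M J F him (thN n F) (thN n F) hsθ hsθ
  obtain ⟨hsθ2, hθ2⟩ := hθp (fun x => x ^ (k + 2)) (hpow (k + 2))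
  obtain ⟨hsθ1, hθ1⟩ := hθp (fun x => x ^ (k + 1)) (hpow (k + 1))
  obtain ⟨⟨hsΦ, hΦ⟩, -⟩ := hHTR n N M J F him (fun q t => thN n F q t ^ (k + 2))
    (fun q t => W q t ^ m) hsθ2 hsem
  obtain ⟨⟨hsw, hw⟩, -⟩ := hHTR n N M J F him (fun q t => thN n F q t ^ (k + 1))
    (fun q t => W q t ^ m) hsθ1 hsem
  obtain ⟨Φ, hΦdef⟩ : ∃ Φ : M → ℝ → ℝ, Φ = fun q t => thN n F q t ^ (k + 2) * W q t ^ m :=
    ⟨_, rfl⟩
  obtain ⟨w, hwdef⟩ : ∃ w : M → ℝ → ℝ, w = fun q t => thN n F q t ^ (k + 1) * W q t ^ m :=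
    ⟨_, rfl⟩
  have hΦgoal : ∀ q t, thN n F q t ^ (k + 2) * W q t ^ m = Φ q t := fun q t => by
    rw [hΦdef]
  simp only [hΦgoal] at hsΦ hΦ ⊢
  have hwgoal : ∀ q t, thN n F q t ^ (k + 1) * W q t ^ m = w q t := fun q t => by
    rw [hwdef]
  simp only [hwgoal] at hsw hw
  obtain ⟨hKs, -⟩ := hJPK n N hn1 M J F hfl
  -- the three fields
  have hX1 : ∀ t ∈ J, ContMDiff (𝓡 n) 𝓘(ℝ, EE N) 1 (gdM n F t (fun q => Φ q t)) :=
    fun t ht => (((hSMR n N M J F him Φ hsΦ).1 t ht).2).of_le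
      (WithTop.coe_le_coe.2 (le_top : (1 : ℕ∞) ≤ ⊤))
  have hwsm : ∀ t ∈ J, ContMDiff (𝓡 n) 𝓘(ℝ, ℝ) 1 (fun q => w q t) :=
    fun t ht => (((hSMR n N M J F him w hsw).1 t ht).1).of_le
      (WithTop.coe_le_coe.2 (le_top : (1 : ℕ∞) ≤ ⊤))
  have hgθ : ∀ t ∈ J, ContMDiff (𝓡 n) 𝓘(ℝ, EE N) 1 (gdM n F t (fun q => thN n F q t)) :=
    fun t ht => (((hSMR n N M J F him (thN n F) hsθ).1 t ht).2).of_le
      (WithTop.coe_le_coe.2 (le_top : (1 : ℕ∞) ≤ ⊤))
  have hX2 : ∀ t ∈ J, ContMDiff (𝓡 n) 𝓘(ℝ, EE N) 1 (fun q => w q t • Sd n F t q) :=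
    fun t ht => (hwsm t ht).smul (hKs t ht).1
  have hX3 : ∀ t ∈ J, ContMDiff (𝓡 n) 𝓘(ℝ, EE N) 1
      (fun q => w q t • gdM n F t (fun q => thN n F q t) q) :=
    fun t ht => (hwsm t ht).smul (hgθ t ht)
  obtain ⟨c₁, hc₁⟩ : ∃ c₁ : ℝ, c₁ = K := ⟨_, rfl⟩
  have hc₁0 : 0 ≤ c₁ := by rw [hc₁]; exact hK0
  have hθnn : ∀ t ∈ Ico ts T, ∀ q, 0 ≤ thN n F q t := by
    intro t ht q
    obtain ⟨G, R, Z, a, w', -, -, -, h, -⟩ :=
      hPKB n hn N M T F ts κ₀ δ C₀ hD t ht q _ _ _ rfl rfl rfl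
    exact h
  have hΦnn : ∀ t ∈ Ico ts T, ∀ q, 0 ≤ Φ q t := by
    intro t ht q
    rw [hΦdef]
    exact mul_nonneg (pow_nonneg (hθnn t ht q) _) (Real.rpow_nonneg (hWpos q t (hJc t ht)).le _)
  -- the pointwise inequality
  have key : ∀ t ∈ Ico ts T, ∀ q, deriv (fun s => Φ q s) t - Y q t * Φ q t
      ≤ dvg (n := n) F (gdM n F t (fun q => Φ q t)) q t
        - μ * (dvg (n := n) F (fun q => w q t • Sd n F t q) q t
          - 1 / 2 * dvg (n := n) F (fun q => w q t • gdM n F t (fun q => thN n F q t) q) q t)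
        + c₁ * Φ q t := by
    intro t htc q
    have ht : t ∈ J := hJc t htc
    have hPR := (hPRJ n N M J F him t ht).1
    have hd2 := hPR (fun q => w q t) (hwsm t ht) (Sd n F t) (hKs t ht).1 q
    have hd3 := hPR (fun q => w q t) (hwsm t ht) (gdM n F t (fun q => thN n F q t)) (hgθ t ht) q
    obtain ⟨G, R, Z, al, w', hG0, hal0, halθ, hθ0, hθY, he0, heG, hw1, hw2, hR, hw3, -, hhθ,
      hhY, -, hdS, hSn, hgn, hgY, hZ, hP2⟩ := hPKB n hn N M T F ts κ₀ δ C₀ hD t htc q (Y q t)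
        (thN n F q t) (eH n F q t) (hYg q t).symm rfl rfl
    have hYq := hYpos q t ht
    simp only [hYg] at hhY hgY
    have hWq := hWpos q t ht
    have hθW : thN n F q t ≤ (1 - δ) * c' * W q t := by
      have h1 : (1 - δ) * c' * W q t = (1 - δ) * c' * Y q t + C₀ * κ₀ := by
        rw [← hWg, mul_add, hΛe]
      rw [h1]
      by_cases h : κ₀ ≤ Y q t
      · have h2 := (hP2 h).1
        rw [← hc'] at h2
        have h3 : 0 ≤ C₀ * κ₀ := mul_nonneg hC0 hκ0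
        linarith
      · have h2 : C₀ * Y q t ≤ C₀ * κ₀ := mul_le_mul_of_nonneg_left (not_le.1 h).le hC0
        have h3 : 0 ≤ (1 - δ) * c' * Y q t := mul_nonneg hδc.le hYq.le
        linarith
    have hbig : κ₀ ≤ Y q t → w' ≤ 2 * Y q t ∧ R ≤ 10 * Y q t * thN n F q t ∧
        δ * Y q t * thN n F q t - 1 / δ * Y q t * al ≤ Z ∧
        R - thN n F q t * w' ≤ -(δ * Y q t * al) := by
      intro h
      obtain ⟨h1, h2, h3⟩ := hP2 h
      rw [← hc'] at h1
      obtain ⟨h4, h5⟩ := lpb_big hn2 hD.δ0 hD.δ1 hc' hYq hθ0 hal0 h1 hw3 h3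
      exact ⟨h4, h5, h2, h3⟩
    have hE1' := hAL (EE N) (gdM n F t (fun q => thN n F q t) q)
      (gdM n F t (fun q => Y q t) q) (Sd n F t q) (thN n F q t) (Y q t) (W q t) (eH n F q t)
      G R Z al w' m hθ0 hYq (hWg q t).symm he0 hG0 hal0 halθ hθW heG hSn hgn hgY hw1 hw2 hR hZ
      hbig hm _ rfl
    have hlap : deriv (fun s => Φ q s) t = htN n F Φ q t
        + dvg (n := n) F (gdM n F t (fun q => Φ q t)) q t := by
      unfold htN lapN
      ring
    have hlapθ : dvg (n := n) F (gdM n F t (fun q => thN n F q t)) q t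
        = lapN n F (thN n F) q t := rfl
    have dp : ∀ (j : ℕ) (x : ℝ), deriv (fun x : ℝ => x ^ (j + 1)) x = ((j : ℝ) + 1) * x ^ j := by
      intro j x
      rw [deriv_pow_field]
      push_cast
      rfl
    have ddp : ∀ x : ℝ, deriv (deriv fun x : ℝ => x ^ (k + 2)) x
        = ((k : ℝ) + 2) * ((k : ℝ) + 1) * x ^ k := by
      intro x
      have h1 : (deriv fun x : ℝ => x ^ (k + 2)) = fun x => ((k : ℝ) + 2) * x ^ (k + 1) := by
        funext y
        rw [dp (k + 1) y]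
        push_cast
        ring
      rw [h1, deriv_const_mul_field, dp k x]
      ring
    have hgθ2 : gdM n F t (fun q => thN n F q t ^ (k + 2)) q
        = (((k : ℝ) + 2) * thN n F q t ^ (k + 1)) • gdM n F t (fun q => thN n F q t) q := by
      rw [(hθ2 q t ht).1, dp (k + 1)]
      push_cast
      congr 1
      ring
    have hgθ1 : gdM n F t (fun q => thN n F q t ^ (k + 1)) q
        = (((k : ℝ) + 1) * thN n F q t ^ k) • gdM n F t (fun q => thN n F q t) q := by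
      rw [(hθ1 q t ht).1, dp k]
    have hhθ2 : htN n F (fun q t => thN n F q t ^ (k + 2)) q t
        = ((k : ℝ) + 2) * thN n F q t ^ (k + 1) * htN n F (thN n F) q t
          - ((k : ℝ) + 2) * ((k : ℝ) + 1) * thN n F q t ^ k
            * ‖gdM n F t (fun q => thN n F q t) q‖ ^ 2 := by
      rw [(hθ2 q t ht).2, ddp, dp (k + 1)]
      push_cast
      ring
    have hE1 : W q t ^ (m - 1) = W q t ^ m / W q t :=
      Real.rpow_sub_one hWq.ne' m
    have hE2 : W q t ^ (m - 2) = W q t ^ m / W q t ^ 2 := by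
      rw [Real.rpow_sub hWq, Real.rpow_two]
    obtain ⟨hgem, hhem⟩ := hem q t ht
    obtain ⟨hgW, hhW⟩ := hW0 q t ht
    rw [hE1, hgW] at hgem
    rw [hE1, hE2, hhW, hgW, hhY] at hhem
    have hΦq := (hΦ q t ht).2
    have hwq := (hw q t ht).1
    rw [hgθ2, hgem, hhem, hhθ2, hhθ] at hΦq
    rw [hgθ1, hgem] at hwq
    rw [hwq] at hd2 hd3
    rw [hdS] at hd2
    rw [hlapθ] at hd3
    rw [hd2, hd3, hlap, hΦq]
    simp only [inner_add_left, inner_smul_left, inner_smul_right, inner_sub_right,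
      real_inner_self_eq_norm_sq, RCLike.conj_to_real, smul_smul] at hE1' ⊢
    have hΦv : Φ q t = (thN n F q t ^ k * thN n F q t ^ 2) * W q t ^ m := by
      rw [hΦdef]
      simp only
      ring
    have hwv : w q t = (thN n F q t ^ k * thN n F q t) * W q t ^ m := by
      rw [hwdef]
      simp only
      ring
    have hring := lph_ring (n : ℝ) (k : ℝ) (thN n F q t) (Y q t) (W q t) (eH n F q t) G R Z w' m
      μ (W q t ^ m) (‖gdM n F t (fun q => thN n F q t) q‖ ^ 2)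
      (‖gdM n F t (fun q => Y q t) q‖ ^ 2)
      (inner ℝ (gdM n F t (fun q => thN n F q t) q) (gdM n F t (fun q => Y q t) q))
      (inner ℝ (gdM n F t (fun q => thN n F q t) q) (Sd n F t q))
      (inner ℝ (gdM n F t (fun q => Y q t) q) (Sd n F t q))
      (lapN n F (thN n F) q t) (thN n F q t ^ k) hWq.ne' hn0.ne'
    have hfac : 0 ≤ thN n F q t ^ k * W q t ^ m :=
      mul_nonneg (pow_nonneg hθ0 k) (Real.rpow_nonneg hWq.le m)
    have h6 : (inner ℝ (gdM n F t (fun q => Y q t) q)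
        (gdM n F t (fun q => thN n F q t) q) : ℝ)
        = inner ℝ (gdM n F t (fun q => thN n F q t) q) (gdM n F t (fun q => Y q t) q) :=
      real_inner_comm _ _
    rw [h6] at hE1' ⊢
    obtain ⟨E, hE⟩ : ∃ E : ℝ, E = ((k : ℝ) + 2) * thN n F q t * (-2 * G + 2 * R)
      - ((k : ℝ) + 2) * (((k : ℝ) + 2) - 1) * ‖gdM n F t (fun q => thN n F q t) q‖ ^ 2
      + thN n F q t ^ 2 * (m / W q t) * (-2 * eH n F q t + 2 * w' * Y q t)
      - m * (m - 1) * thN n F q t ^ 2 * ‖gdM n F t (fun q => Y q t) q‖ ^ 2 / W q t ^ 2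
      - 2 * ((k : ℝ) + 2) * m * thN n F q t
        * inner ℝ (gdM n F t (fun q => thN n F q t) q) (gdM n F t (fun q => Y q t) q) / W q t
      - Y q t * thN n F q t ^ 2
      + μ * thN n F q t * ((1 - 1 / (n : ℝ)) * eH n F q t - G - Z)
      + μ * ((((k : ℝ) + 2) - 1)
          * inner ℝ (gdM n F t (fun q => thN n F q t) q) (Sd n F t q)
        - 1 / 2 * ((((k : ℝ) + 2) - 1) * ‖gdM n F t (fun q => thN n F q t) q‖ ^ 2)
        + (m * thN n F q t / W q t) * inner ℝ (gdM n F t (fun q => Y q t) q) (Sd n F t q)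
        - 1 / 2 * ((m * thN n F q t / W q t)
          * inner ℝ (gdM n F t (fun q => thN n F q t) q) (gdM n F t (fun q => Y q t) q))) :=
      ⟨_, rfl⟩
    rw [← hE] at hring
    have hEc : E ≤ c₁ * thN n F q t ^ 2 := by
      rw [hE, hc₁]
      refine le_trans (le_of_eq ?_) hE1'
      push_cast
      ring
    have hfin : thN n F q t ^ k * W q t ^ m * E ≤ c₁ * Φ q t := by
      have h1 := mul_le_mul_of_nonneg_left hEc hfac
      rw [hΦv]
      linarith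
    rw [← hring] at hfin
    rw [hΦv] at hfin ⊢
    rw [hwv]
    have h7 : thN n F q t ^ (k + 2) = thN n F q t ^ k * thN n F q t ^ 2 := by ring
    have h8 : thN n F q t ^ (k + 1) = thN n F q t ^ k * thN n F q t := by ring
    rw [h7, h8]
    linarith
  -- integration
  have hset : SetupF n J F c χ := ⟨hfl, hPU⟩
  obtain ⟨fs, -, hmu⟩ := hMUJ n N M J F c χ hset.toJ
  obtain ⟨-, hsC, hsC', hsD, -⟩ := hSMR n N M J F him Φ hsΦ
  have hder := (hTDJ n N M J F c χ hset).2 Φ (fun q t => deriv (fun s => Φ q s) t) hsC hsC'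
    hsD
  simp only [hYg] at hder
  have hcHH : ∀ t ∈ J, Continuous fun q => Y q t := fun t ht =>
    ((hSMR n N M J F him (fun q t => Y q t) hsHH).1 t ht).1.continuous
  have hder0 : ∀ t ∈ Ico ts T, ∫ q, (deriv (fun s => Φ q s) t - Y q t * Φ q t)
      ∂muM n F c χ t ≤ c₁ * ∫ q, Φ q t ∂muM n F c χ t := by
    intro t htc
    have ht : t ∈ J := hJc t htc
    have hint := (hmu t ht).2.2
    obtain ⟨c1, z1⟩ := hFVJ n N M J F c χ hset.toJ t ht _ (hX1 t ht)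
    obtain ⟨c2, z2⟩ := hFVJ n N M J F c χ hset.toJ t ht _ (hX2 t ht)
    obtain ⟨c3, z3⟩ := hFVJ n N M J F c χ hset.toJ t ht _ (hX3 t ht)
    have o1 : ∀ q, (inner ℝ (HH (n := n) F q t) (gdM n F t (fun q => Φ q t) q) : ℝ) = 0 :=
      fun q => ((hSMR n N M J F him Φ hsΦ).2.2.2.2.2.2.2 t ht q).2
    have o2 : ∀ q, (inner ℝ (HH (n := n) F q t) (w q t • Sd n F t q) : ℝ) = 0 := fun q => by
      rw [inner_smul_right, (hKs t ht).2 q, mul_zero]
    have o3 : ∀ q, (inner ℝ (HH (n := n) F q t)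
        (w q t • gdM n F t (fun q => thN n F q t) q) : ℝ) = 0 := fun q => by
      rw [inner_smul_right,
        ((hSMR n N M J F him (thN n F) hsθ).2.2.2.2.2.2.2 t ht q).2, mul_zero]
    simp only [o1, add_zero] at z1
    simp only [o2, add_zero] at z2
    simp only [o3, add_zero] at z3
    have hcΦ : Continuous fun q => Φ q t := CSTJ_slice hsC ht
    have hcD : Continuous fun q => deriv (fun s => Φ q s) t := CSTJ_slice hsC' ht
    have i0 := (hint _ (hcD.sub ((hcHH t ht).mul hcΦ))).1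
    have i1 := (hint _ c1).1
    have i2 := (hint _ c2).1
    have i3 := (hint _ c3).1
    have iΦ := (hint _ hcΦ).1
    have i23 := i2.sub (i3.const_mul (1 / 2))
    have i123 := i1.sub (i23.const_mul μ)
    refine (integral_mono i0 (i123.add (iΦ.const_mul c₁)) fun q => key t htc q).trans
      (le_of_eq ?_)
    have h1 := int_comb i1 i2 i3 z1 z2 z3 μ
    have h2 : ∫ q, ((fun q => dvg (n := n) F (gdM n F t (fun q => Φ q t)) q t
        - μ * (dvg (n := n) F (fun q => w q t • Sd n F t q) q t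
          - 1 / 2 * dvg (n := n) F
            (fun q => w q t • gdM n F t (fun q => thN n F q t) q) q t)) q
        + (fun q => c₁ * Φ q t) q) ∂muM n F c χ t
        = ∫ q, (dvg (n := n) F (gdM n F t (fun q => Φ q t)) q t
        - μ * (dvg (n := n) F (fun q => w q t • Sd n F t q) q t
          - 1 / 2 * dvg (n := n) F
            (fun q => w q t • gdM n F t (fun q => thN n F q t) q) q t)) ∂muM n F c χ t
          + ∫ q, c₁ * Φ q t ∂muM n F c χ t := integral_add i123 (iΦ.const_mul c₁)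
    refine h2.trans ?_
    rw [h1, integral_const_mul, zero_add]
  have hts : ts ∈ Ico ts T := ⟨le_rfl, hD.ts0.2⟩
  refine ⟨(∫ q, Φ q ts ∂muM n F c χ ts) * Real.exp c₁, hΛ0, ?_⟩
  refine gron (I := fun t => ∫ q, Φ q t ∂muM n F c χ t)
    (I' := fun t => ∫ q, (deriv (fun s => Φ q s) t - Y q t * Φ q t) ∂muM n F c χ t)
    (fun t ht => hder t (hJc t ht)) hder0 hc₁0 ?_ ?_
  · linarith [hD.T1, hD.ts0.1]
  · exact integral_nonneg fun q => hΦnn ts hts q

end Pool.Agent.Helper7.HG.LPB
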