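import Mathlib
import Pool.Agent.Helper35.HG.StE

/-!
Project HG (MP_925021_gt), module PQ3: polynomial inequalities for large `g`.
-/

set_option autoImplicit false

namespace Pool.Agent.Helper7.HG.PQ3

open Helper35.HG Helper35.HC Helper35.HSF Helper35.MS Helper35.PI Helper35.PI2 Helper32.CL

/-- the polynomial of the case `a = 4/5` -/
noncomputable def Q8 (t g : ℝ) : ℝ :=
    83792/46875 - 154393/31250*g - 575563/93750*g^2 - 5098/3125*g^3 - 988013/187500*t +
    145917/12500*t*g + 319207/31250*t*g^2 - 575563/93750*t*g^3 - 5098/3125*t*g^4 -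
    524319/62500*t^2*g + 896481/62500*t^2*g^2 + 14208/625*t^2*g^3 - 856636/46875*t^3*g^2 -
    501436/46875*t^3*g^3 + 4736/625*t^3*g^4 - 4736/625*t^4*g^3 - 4736/625*t^4*g^4

/-- the polynomial of the case `a = 0` -/
noncomputable def Q0 (t g : ℝ) : ℝ :=
    13817/6250 - 101839/25000*g - 138707/25000*g^2 - 4638/3125*g^3 - 1084253/150000*t +
    233471/30000*t*g + 218161/25000*t*g^2 - 138707/25000*t*g^3 - 4638/3125*t*g^4 -
    568879/50000*t^2*g + 391121/50000*t^2*g^2 + 96/5*t^2*g^3 - 158899/9375*t^3*g^2 -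
    98899/9375*t^3*g^3 + 32/5*t^3*g^4 - 32/5*t^4*g^3 - 32/5*t^4*g^4

theorem q8_le (t g : ℝ) (h1 : 0 ≤ t) (h2 : t ≤ 1) (h3 : 3 / 10 ≤ g) : Q8 t g ≤ 0 := by
  unfold Q8
  rcases le_total g 4 with h4 | h4
  · rcases le_total t (1 / 2) with h5 | h5
    · exact Poly.r8_0 t g h1 h5 h3 h4
    · rcases le_total t (3 / 4) with h6 | h6
      · rcases le_total g (43 / 20) with h7 | h7
        · exact Poly.r8_1 t g h5 h6 h3 h7
        · exact Poly.r8_2 t g h5 h6 h7 h4
      · rcases le_total g (43 / 20) with h7 | h7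
        · exact Poly.r8_3 t g h6 h2 h3 h7
        · exact Poly.r8_4 t g h6 h2 h7 h4
  · rcases le_total t (1 / 2) with h5 | h5
    · exact Poly.rt8_0 t g h1 h5 h4
    · rcases le_total t (3 / 4) with h6 | h6
      · exact Poly.rt8_1 t g h5 h6 h4
      · exact Poly.rt8_2 t g h6 h2 h4

theorem q0_le (t g : ℝ) (h1 : 0 ≤ t) (h2 : t ≤ 1) (h3 : 2 / 5 ≤ g) : Q0 t g ≤ 0 := by
  unfold Q0
  rcases le_total g 4 with h4 | h4
  · rcases le_total t (1 / 2) with h5 | h5
    · exact Poly.r0_0 t g h1 h5 h3 h4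
    · exact Poly.r0_1 t g h5 h2 h3 h4
  · rcases le_total t (1 / 2) with h5 | h5
    · exact Poly.rt0_0 t g h1 h5 h4
    · rcases le_total t (3 / 4) with h6 | h6
      · exact Poly.rt0_1 t g h5 h6 h4
      · exact Poly.rt0_2 t g h6 h2 h4

theorem id8 (t g : ℝ) (hg : 0 < g) (ht : 0 ≤ t) :
    (cB8 (t * g) g + cC (4 / 5) (t * g) g + cD8 (t * g) g) * ((1 + t * g) * (1 + g))
      = g * Q8 t g := by
  have h1 : (1 + t * g) ≠ 0 := by positivity
  have h2 : (1 + g) ≠ 0 := by positivity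
  unfold cB8 cC cD8 D1f Q8
  field_simp
  ring

theorem id0 (t g : ℝ) (hg : 0 < g) (ht : 0 ≤ t) :
    (cB0 (t * g) g + cC 1 (t * g) g + cD0 (t * g) g) * ((1 + t * g) * (1 + g))
      = g * Q0 t g := by
  have h1 : (1 + t * g) ≠ 0 := by positivity
  have h2 : (1 + g) ≠ 0 := by positivity
  unfold cB0 cC cD0 D1f Q0
  field_simp
  ring

theorem hPQ3 : StPQ3 := by
  intro u g hu hug
  constructor
  · intro hg
    have hg0 : 0 < g := by linarith
    have ht0 : 0 ≤ u / g := by positivity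
    have ht1 : u / g ≤ 1 := (div_le_one hg0).2 hug
    have hu' : u / g * g = u := div_mul_cancel₀ u hg0.ne'
    have h1 := id8 (u / g) g hg0 ht0
    rw [hu'] at h1
    have h2 : g * Q8 (u / g) g ≤ 0 :=
      mul_nonpos_of_nonneg_of_nonpos hg0.le (q8_le _ _ ht0 ht1 hg)
    rw [← h1] at h2
    have h3 : 0 < (1 + u) * (1 + g) := by positivity
    exact nonpos_of_mul_nonpos_left h2 h3
  · intro hg
    have hg0 : 0 < g := by linarith
    have ht0 : 0 ≤ u / g := by positivity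
    have ht1 : u / g ≤ 1 := (div_le_one hg0).2 hug
    have hu' : u / g * g = u := div_mul_cancel₀ u hg0.ne'
    have h1 := id0 (u / g) g hg0 ht0
    rw [hu'] at h1
    have h2 : g * Q0 (u / g) g ≤ 0 :=
      mul_nonpos_of_nonneg_of_nonpos hg0.le (q0_le _ _ ht0 ht1 hg)
    rw [← h1] at h2
    have h3 : 0 < (1 + u) * (1 + g) := by positivity
    exact nonpos_of_mul_nonpos_left h2 h3

end Pool.Agent.Helper7.HG.PQ3
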